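import Mathlib
import Pool.Agent.V11105.HeisTC4

/-! MP_442888_an, Q1 and Q2: a smooth time change of a uniquely ergodic Heisenberg nilflow which is
measurably non-trivial but neither mixing nor weakly mixing. -/

set_option autoImplicit false
open MeasureTheory Filter Topology

namespace Pool.Agent.Results.MP_442888_an.EigenvalueTimeChange

open Pool.Agent.V11105 Pool.Agent.V11105.HeisBase

/-- The flow `φ` on the Heisenberg nilmanifold `M` is uniquely ergodic: the Haar probability measure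
`haarM` is invariant, and is the only invariant Borel probability measure. -/
def UniquelyErgodic (φ : ℝ → M → M) : Prop :=
  (∀ t, Measure.map (φ t) haarM = haarM) ∧
    ∀ ν : Measure M, IsProbabilityMeasure ν → (∀ t, Measure.map (φ t) ν = ν) → ν = haarM

/-- `α` is of class `C^∞` on `M = Γ \ G`: its lift to `G`, in the coordinates of `G = ℝ³`, is. -/
def SmoothM (α : M → ℝ) : Prop :=
  ContDiff ℝ (⊤ : ℕ∞) fun t : ℝ × ℝ × ℝ => α (mk (el t.1 t.2.1 t.2.2))

/-- `ψ` is the time change of `φ` generated by `X / α`: `ψ_t P = φ_s P`, where `s` is given by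
`∫_0^s α (φ_r P) dr = t`. -/
def IsTimeChange (φ : ℝ → M → M) (α : M → ℝ) (ψ : ℝ → M → M) : Prop :=
  ∀ (t : ℝ) (P : M), ∃ s : ℝ, (∫ r in (0 : ℝ)..s, α (φ r P)) = t ∧ ψ t P = φ s P

/-- The time change of `φ` by `α` is measurably trivial: for some constant `c` and some (almost
everywhere) measurable `u`, for every `t`, `u (φ_t P) - u P = ∫_0^t (α (φ_r P) - c) dr` for almost
every `P`. -/
def MeasurablyTrivial (φ : ℝ → M → M) (α : M → ℝ) : Prop :=
  ∃ (c : ℝ) (u : M → ℝ), AEMeasurable u haarM ∧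
    ∀ t : ℝ, ∀ᵐ P ∂haarM, u (φ t P) - u P = ∫ r in (0 : ℝ)..t, (α (φ r P) - c)

/-- The probability measure proportional to `α d(haarM)`. -/
noncomputable def tcMeasure (α : M → ℝ) : Measure M :=
  (∫⁻ P, ENNReal.ofReal (α P) ∂haarM)⁻¹ • haarM.withDensity fun P => ENNReal.ofReal (α P)

/-- Mixing. -/
def Mixing (ψ : ℝ → M → M) (ν : Measure M) : Prop :=
  ∀ A B : Set M, MeasurableSet A → MeasurableSet B →
    Tendsto (fun t : ℝ => ν.real (ψ t '' A ∩ B)) atTop (𝓝 (ν.real A * ν.real B))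

/-- Weak mixing. -/
def WeaklyMixing (ψ : ℝ → M → M) (ν : Measure M) : Prop :=
  ∀ A B : Set M, MeasurableSet A → MeasurableSet B →
    Tendsto (fun t : ℝ => (∫⁻ s in Set.Ioc 0 t,
      ENNReal.ofReal |ν.real (ψ s '' A ∩ B) - ν.real A * ν.real B|) / ENNReal.ofReal t)
      atTop (𝓝 0)

/-- A flow which keeps avoiding is not mixing. -/
lemma not_mixing (ψ : ℝ → M → M) (ν : Measure M) (A B : Set M) (hA : MeasurableSet A)
    (hB : MeasurableSet B) (hpos : 0 < ν.real A * ν.real B)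
    (h : ∀ (n : ℕ) (s : ℝ), (n : ℝ) ≤ s → s ≤ n + 1 / 40 → ν.real (ψ s '' A ∩ B) = 0) :
    ¬ Mixing ψ ν := by
  intro hm
  have h1 := (hm A B hA hB).comp tendsto_natCast_atTop_atTop
  have h2 : ((fun t : ℝ => ν.real (ψ t '' A ∩ B)) ∘ (Nat.cast : ℕ → ℝ)) = fun _ => 0 := by
    funext n
    exact h n n le_rfl (by linarith)
  rw [h2] at h1
  have := tendsto_nhds_unique h1 tendsto_const_nhds
  linarith

/-- A flow which keeps avoiding is not weakly mixing. -/
lemma not_weaklyMixing (ψ : ℝ → M → M) (ν : Measure M) (A B : Set M) (hA : MeasurableSet A)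
    (hB : MeasurableSet B) (hpos : 0 < ν.real A * ν.real B)
    (h : ∀ (n : ℕ) (s : ℝ), (n : ℝ) ≤ s → s ≤ n + 1 / 40 → ν.real (ψ s '' A ∩ B) = 0) :
    ¬ WeaklyMixing ψ ν := by
  intro hm
  set κ : ℝ := ν.real A * ν.real B with hκ
  set f : ℝ → ENNReal := fun s => ENNReal.ofReal |ν.real (ψ s '' A ∩ B) - κ| with hf
  have hlow : ∀ N : ℕ, (N : ENNReal) * ENNReal.ofReal (κ / 40) ≤ ∫⁻ s in Set.Ioc (0 : ℝ) N, f s := by
    intro N
    induction N with
    | zero => simp
    | succ N ih =>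
      have h1 : Set.Ioc (0 : ℝ) N ∪ Set.Ioc (N : ℝ) (N + 1 / 40) ⊆ Set.Ioc (0 : ℝ) ((N + 1 : ℕ) : ℝ) := by
        have h0 : (0 : ℝ) ≤ N := Nat.cast_nonneg N
        push_cast
        rintro x (hx | hx)
        · exact ⟨hx.1, by linarith [hx.2]⟩
        · exact ⟨by linarith [hx.1], by linarith [hx.2]⟩
      have hdis : Disjoint (Set.Ioc (0 : ℝ) N) (Set.Ioc (N : ℝ) (N + 1 / 40)) := by
        rw [Set.disjoint_left]
        intro x hx hx'
        linarith [hx.2, hx'.1]
      have h2 : ∫⁻ s in Set.Ioc (0 : ℝ) N ∪ Set.Ioc (N : ℝ) (N + 1 / 40), f s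
          ≤ ∫⁻ s in Set.Ioc (0 : ℝ) ((N + 1 : ℕ) : ℝ), f s := lintegral_mono_set h1
      rw [lintegral_union measurableSet_Ioc hdis] at h2
      have h3 : ENNReal.ofReal (κ / 40) ≤ ∫⁻ s in Set.Ioc (N : ℝ) (N + 1 / 40), f s := by
        have h4 : ∫⁻ _s in Set.Ioc (N : ℝ) (N + 1 / 40), ENNReal.ofReal κ
            ≤ ∫⁻ s in Set.Ioc (N : ℝ) (N + 1 / 40), f s := by
          refine setLIntegral_mono' measurableSet_Ioc fun s hs => ?_
          simp only [hf]
          rw [h N s hs.1.le hs.2, zero_sub, abs_neg, abs_of_pos hpos]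
        rw [setLIntegral_const, Real.volume_Ioc, ← ENNReal.ofReal_mul hpos.le] at h4
        have e : κ * ((N : ℝ) + 1 / 40 - N) = κ / 40 := by ring
        rwa [e] at h4
      refine le_trans ?_ h2
      push_cast
      rw [add_mul, one_mul]
      exact add_le_add ih h3
  have h1 := (hm A B hA hB).comp tendsto_natCast_atTop_atTop
  have hκ' : (0 : ENNReal) < ENNReal.ofReal (κ / 40) := ENNReal.ofReal_pos.2 (by positivity)
  obtain ⟨N, hN1, hN2⟩ := ((h1.eventually (gt_mem_nhds hκ')).and (eventually_ge_atTop 1)).exists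
  have h2 := hlow N
  have hN0 : (N : ENNReal) ≠ 0 := by
    rw [Nat.cast_ne_zero]
    omega
  have h3 : ENNReal.ofReal (κ / 40) ≤ (∫⁻ s in Set.Ioc (0 : ℝ) N, f s) / (N : ENNReal) := by
    rw [ENNReal.le_div_iff_mul_le (Or.inl hN0) (Or.inl (ENNReal.natCast_ne_top N)), mul_comm]
    exact h2
  have h4 : (∫⁻ s in Set.Ioc (0 : ℝ) N, f s) / ENNReal.ofReal (N : ℝ) < ENNReal.ofReal (κ / 40) := hN1
  rw [ENNReal.ofReal_natCast] at h4
  exact absurd h3 (not_le.2 h4)

lemma tcMeasure_pos (D : HeisTC.Dat) (A : Set M) (hA : 0 < haarM A) :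
    0 < (tcMeasure (HeisTC.al D)).real A := by
  have hlow : ∀ S : Set M, MeasurableSet S → ENNReal.ofReal (499 / 500) * haarM S ≤
      ∫⁻ P in S, ENNReal.ofReal (HeisTC.al D P) ∂haarM := by
    intro S hS
    rw [← setLIntegral_const]
    exact setLIntegral_mono' hS fun P _ => ENNReal.ofReal_le_ofReal (HeisTC.al_bounds D P).1
  have hup : ∫⁻ P, ENNReal.ofReal (HeisTC.al D P) ∂haarM ≤ ENNReal.ofReal (501 / 500) := by
    have h1 : ∫⁻ P, ENNReal.ofReal (HeisTC.al D P) ∂haarM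
        ≤ ∫⁻ _P, ENNReal.ofReal (501 / 500) ∂haarM :=
      lintegral_mono fun P => ENNReal.ofReal_le_ofReal (HeisTC.al_bounds D P).2
    rwa [lintegral_const, measure_univ, mul_one] at h1
  have hlow1 := hlow Set.univ MeasurableSet.univ
  rw [Measure.restrict_univ, measure_univ, mul_one] at hlow1
  set I0 := ∫⁻ P, ENNReal.ofReal (HeisTC.al D P) ∂haarM with hI0
  have hI0top : I0 ≠ ⊤ := ne_top_of_le_ne_top ENNReal.ofReal_ne_top hup
  have hI0z : I0 ≠ 0 := by
    intro h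
    rw [h] at hlow1
    have : (0 : ENNReal) < ENNReal.ofReal (499 / 500) := ENNReal.ofReal_pos.2 (by norm_num)
    exact absurd hlow1 (not_le.2 this)
  -- pass to the measurable hull
  have hval : tcMeasure (HeisTC.al D) A = I0⁻¹ * (haarM.withDensity fun P =>
      ENNReal.ofReal (HeisTC.al D P)) A := by
    unfold tcMeasure
    rw [Measure.smul_apply, smul_eq_mul]
  have hA1 : 0 < (haarM.withDensity fun P => ENNReal.ofReal (HeisTC.al D P)) A := by
    rw [pos_iff_ne_zero]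
    intro h0
    rw [withDensity_apply_eq_zero' ((HeisTC.continuous_al D).measurable.ennreal_ofReal.aemeasurable)]
      at h0
    have h1 : ({P : M | ENNReal.ofReal (HeisTC.al D P) ≠ 0} ∩ A) = A := by
      refine Set.inter_eq_right.2 fun P _ => ?_
      have : 0 < HeisTC.al D P := by linarith [(HeisTC.al_bounds D P).1]
      exact (ENNReal.ofReal_pos.2 this).ne'
    rw [h1] at h0
    exact hA.ne' h0
  have hA2 : (haarM.withDensity fun P => ENNReal.ofReal (HeisTC.al D P)) A ≤ I0 := by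
    refine (measure_mono (Set.subset_univ A)).trans ?_
    rw [withDensity_apply _ MeasurableSet.univ, Measure.restrict_univ]
  unfold Measure.real
  rw [hval]
  refine ENNReal.toReal_pos ?_ ?_
  · exact mul_ne_zero (ENNReal.inv_ne_zero.2 hI0top) hA1.ne'
  · exact ENNReal.mul_ne_top (ENNReal.inv_ne_top.2 hI0z) (ne_top_of_le_ne_top hI0top hA2)

/-- There are a uniquely ergodic, parabolic Heisenberg nilflow `φ` and a measurably non-trivial smooth
time change of it which is neither mixing nor weakly mixing. -/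
theorem result :
    (IsProbabilityMeasure haarM ∧ ∀ h : Heis, Measure.map (rmul h) haarM = haarM) ∧
    ∃ (a b c : ℝ) (α : M → ℝ),
      (a ≠ 0 ∨ b ≠ 0) ∧
      UniquelyErgodic (nilflow a b c) ∧
      SmoothM α ∧
      (∀ P, 0 < α P) ∧
      ¬ MeasurablyTrivial (nilflow a b c) α ∧
      (∃ ψ, IsTimeChange (nilflow a b c) α ψ) ∧
      ∀ ψ, IsTimeChange (nilflow a b c) α ψ →
        ¬ WeaklyMixing ψ (tcMeasure α) ∧ ¬ Mixing ψ (tcMeasure α) := by
  refine ⟨⟨inferInstance, HeisInt.map_rmul_haarM⟩, ?_⟩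
  obtain ⟨D⟩ := HeisTC.nonempty_dat
  refine ⟨1, D.θ, 0, HeisTC.al D, Or.inl one_ne_zero, ⟨HeisInt.map_nilflow_haarM 1 D.θ 0, ?_⟩,
    HeisTC.contDiff_al D, ?_, ?_, ?_, ?_⟩
  · intro ν hν hinv
    exact HeisUE2.unique_ergodic D.θ D.irr ν hinv
  · intro P
    linarith [(HeisTC.al_bounds D P).1]
  · rintro ⟨c, u, hu, h⟩
    refine HeisTC3.not_trivial D c (hu.mk u) hu.measurable_mk fun t => ?_
    have hmp : MeasurePreserving (nilflow 1 D.θ 0 t) haarM haarM :=
      ⟨(continuous_nilflow 1 D.θ 0 t).measurable, HeisInt.map_nilflow_haarM 1 D.θ 0 t⟩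
    have h1 : ∀ᵐ P ∂haarM, u (nilflow 1 D.θ 0 t P) = hu.mk u (nilflow 1 D.θ 0 t P) :=
      hmp.quasiMeasurePreserving.ae hu.ae_eq_mk
    filter_upwards [h t, h1, hu.ae_eq_mk] with P e1 e2 e3
    show hu.mk u (nilflow 1 D.θ 0 t P) - hu.mk u P = _
    rw [← e2, ← e3]
    exact e1
  · choose s hs using fun (t : ℝ) (P : M) => HeisTC4.exists_time D t P
    exact ⟨fun t P => nilflow 1 D.θ 0 (s t P) P, fun t P => ⟨s t P, hs t P, rfl⟩⟩
  · intro ψ hψ
    obtain ⟨A, B, hA, hB, hA0, hB0, hav⟩ := HeisTC4.exists_sets D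
    have hpos : 0 < (tcMeasure (HeisTC.al D)).real A * (tcMeasure (HeisTC.al D)).real B :=
      mul_pos (tcMeasure_pos D A hA0) (tcMeasure_pos D B hB0)
    have h0 : ∀ (n : ℕ) (s : ℝ), (n : ℝ) ≤ s → s ≤ n + 1 / 40 →
        (tcMeasure (HeisTC.al D)).real (ψ s '' A ∩ B) = 0 := by
      intro n s h1 h2
      have hemp : ψ s '' A ∩ B = ∅ := by
        rw [Set.eq_empty_iff_forall_notMem]
        rintro Q ⟨⟨P, hP, rfl⟩, hQ⟩
        obtain ⟨σ, hσ, hψσ⟩ := hψ s P
        rw [hψσ] at hQ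
        exact hav n s h1 h2 P hP σ hσ hQ
      rw [hemp]
      simp
    exact ⟨not_weaklyMixing ψ _ A B hA hB hpos h0, not_mixing ψ _ A B hA hB hpos h0⟩

end Pool.Agent.Results.MP_442888_an.EigenvalueTimeChange
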